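import Pool.Agent.Helper66_D2.Stmts
import Pool.Agent.Helper26_D1.Mcd

/-!
# Squad PP, part D2, module BRQ: the Brauer map and the relative trace
-/

open scoped BigOperators

noncomputable section

namespace Pool.Agent.PP.CD2.H26

open Pool.Agent.PP Pool.Agent.Helper51_AWC Pool.Agent.Helper79_WRA Pool.Agent.PP.D1.H26

/-- a cyclic group has one subgroup of order `ℓ` -/
theorem mem_zp {G : Type} [Group G] [Finite G] {ℓ : ℕ} [hℓ : Fact ℓ.Prime] {P : Subgroup G}
    (hc : IsCyclic P) {y z : G} (hy : y ∈ P) (ho : orderOf y = ℓ) (hz : z ∈ P) (hzl : z ^ ℓ = 1) :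
    z ∈ Subgroup.zpowers y := by
  classical
  have := Fintype.ofFinite P
  have h1 := IsCyclic.card_pow_eq_one_le (α := P) hℓ.out.pos
  have h2 : Nat.card (Subgroup.zpowers (⟨y, hy⟩ : P)) = ℓ := by
    rw [Nat.card_zpowers, ← ho]
    exact Subgroup.orderOf_mk y hy
  have h3 : (Set.Finite.toFinset (Set.toFinite (Subgroup.zpowers (⟨y, hy⟩ : P) : Set P))) ⊆
      Finset.univ.filter (fun a : P => a ^ ℓ = 1) := by
    intro a ha
    rw [Set.Finite.mem_toFinset, SetLike.mem_coe] at ha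
    rw [Finset.mem_filter]
    refine ⟨Finset.mem_univ _, ?_⟩
    obtain ⟨j, rfl⟩ := Subgroup.mem_zpowers_iff.1 ha
    have h4 : (⟨y, hy⟩ : P) ^ ℓ = 1 := by
      apply Subtype.ext
      rw [Subgroup.coe_pow, ← ho, pow_orderOf_eq_one]
      rfl
    rw [← zpow_natCast, ← zpow_mul, mul_comm, zpow_mul, zpow_natCast, h4, one_zpow]
  have h5 : (Set.Finite.toFinset (Set.toFinite (Subgroup.zpowers (⟨y, hy⟩ : P) : Set P))) =
      Finset.univ.filter (fun a : P => a ^ ℓ = 1) := by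
    apply Finset.eq_of_subset_of_card_le h3
    refine h1.trans ?_
    rw [← Set.ncard_eq_toFinset_card]
    have h6 : (Subgroup.zpowers (⟨y, hy⟩ : P) : Set P).ncard = ℓ := by
      rw [← h2]
      exact (Nat.card_coe_set_eq _).symm
    rw [h6]
  have h7 : (⟨z, hz⟩ : P) ∈ Finset.univ.filter (fun a : P => a ^ ℓ = 1) := by
    rw [Finset.mem_filter]
    refine ⟨Finset.mem_univ _, ?_⟩
    apply Subtype.ext
    rw [Subgroup.coe_pow]
    exact hzl
  rw [← h5, Set.Finite.mem_toFinset, SetLike.mem_coe] at h7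
  obtain ⟨j, hj⟩ := Subgroup.mem_zpowers_iff.1 h7
  have h8 := congrArg (fun t : P => (t : G)) hj
  refine Subgroup.mem_zpowers_iff.2 ⟨j, ?_⟩
  simpa using h8

/-- FREE -/
theorem free {G : Type} [Group G] [Finite G] {ℓ : ℕ} [hℓ : Fact ℓ.Prime] {P : Subgroup G}
    (hc : IsCyclic P) {y g u : G} (hy : y ∈ P) (ho : orderOf y = ℓ) (hu : u ∈ Subgroup.zpowers y)
    (hu1 : u ≠ 1) (hg : g⁻¹ * u * g ∈ P) : g ∈ NY y := by
  have hcard : Nat.card (Subgroup.zpowers y) = ℓ := by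
    rw [Nat.card_zpowers, ho]
  refine norm_prime (P := Subgroup.zpowers y) hcard hu hu1 ?_
  refine mem_zp hc hy ho hg ?_
  have h1 : u ^ ℓ = 1 := by
    obtain ⟨j, rfl⟩ := Subgroup.mem_zpowers_iff.1 hu
    rw [← zpow_natCast, ← zpow_mul, mul_comm, zpow_mul, zpow_natCast, ← ho, pow_orderOf_eq_one,
      one_zpow]
  have h2 := conj_pow (a := g⁻¹) (b := u) (i := ℓ)
  rw [inv_inv] at h2
  rw [h2, h1]
  group

/-- the action of `A × B` on `G` from both sides -/
@[reducible] def bact2 {G : Type} [Group G] (A B : Subgroup G) : MulAction (A × B) G where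
  smul k g := (k.1 : G) * g * (k.2 : G)⁻¹
  one_smul g := by
    change (1 : G) * g * (1 : G)⁻¹ = g
    simp
  mul_smul k k' g := by
    change ((k.1 * k'.1 : A) : G) * g * ((k.2 * k'.2 : B) : G)⁻¹ =
      (k.1 : G) * ((k'.1 : G) * g * (k'.2 : G)⁻¹) * (k.2 : G)⁻¹
    push_cast
    group

theorem bY_pos {F : Type} [Field F] {G : Type} [Group G] {y x : G} (a : G → F) (hx : x ∈ CY y) :
    bY y a x = a x := by
  classical
  unfold bY br
  exact if_pos hx

theorem bY_neg {F : Type} [Field F] {G : Type} [Group G] {y x : G} (a : G → F) (hx : x ∉ CY y) :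
    bY y a x = 0 := by
  classical
  unfold bY br
  exact if_neg hx

/-- the normaliser acts on the centraliser -/
theorem conj_CY {G : Type} [Group G] {y g x : G} (hg : g ∈ NY y) :
    g⁻¹ * x * g ∈ CY y ↔ x ∈ CY y := by
  have key : ∀ g ∈ NY y, ∀ x ∈ CY y, g⁻¹ * x * g ∈ CY y := by
    intro g hg x hx
    rw [CY, Subgroup.mem_centralizer_iff] at hx ⊢
    intro h hh
    have h1 : g * h * g⁻¹ ∈ Subgroup.zpowers y :=
      (Subgroup.mem_normalizer_iff.1 hg h).1 hh
    have h2 := hx _ h1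
    have h3 : g⁻¹ * (g * h * g⁻¹ * x) * g = g⁻¹ * (x * (g * h * g⁻¹)) * g := by rw [h2]
    have e1 : h * (g⁻¹ * x * g) = g⁻¹ * (g * h * g⁻¹ * x) * g := by group
    have e2 : g⁻¹ * x * g * h = g⁻¹ * (x * (g * h * g⁻¹)) * g := by group
    rw [e1, e2, h3]
  refine ⟨fun h => ?_, key g hg x⟩
  have h1 := key g⁻¹ (Subgroup.inv_mem _ hg) _ h
  have e : g⁻¹⁻¹ * (g⁻¹ * x * g) * g⁻¹ = x := by group
  rwa [e] at h1

theorem brq (frw : FrwStmt) : BrqStmt := by
  classical
  intro ℓ hℓ F _ hF G _ _ n N P y₁ hPN hcyc hcard hy ho c c₁ a hc hc₁ ha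
  have := Fintype.ofFinite G
  have := Fintype.ofFinite P
  have := Fintype.ofFinite (Subgroup.zpowers y₁)
  have hchar : CharP F ℓ := hF.char
  have hP1P : Subgroup.zpowers y₁ ≤ P := by
    rw [Subgroup.zpowers_le]
    exact hy
  -- `P` normalises `P₁`
  have hPn : P ≤ NY y₁ := by
    intro p hp
    rw [NY, Subgroup.mem_normalizer_iff]
    have hcom : ∀ s ∈ P, ∀ t ∈ P, s * t = t * s := by
      intro s hs t ht
      have hcg := hcyc.commGroup
      have h1 := mul_comm' (⟨s, hs⟩ : P) ⟨t, ht⟩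
      exact congrArg (fun r : P => (r : G)) h1
    intro h
    constructor
    · intro hh
      rw [hcom p hp h (hP1P hh), mul_inv_cancel_right]
      exact hh
    · intro hh
      have h2 : h ∈ P := by
        have h3 := P.mul_mem (P.mul_mem (P.inv_mem hp) (hP1P hh)) hp
        have e : p⁻¹ * (p * h * p⁻¹) * p = h := by group
        rwa [e] at h3
      rw [hcom p hp h h2, mul_inv_cancel_right] at hh
      exact hh
  funext x
  by_cases hx : x ∈ CY y₁
  swap
  · rw [bY_neg _ hx]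
    symm
    rw [finsum_eq_sum_of_fintype]
    apply Finset.sum_eq_zero
    intro g _
    by_cases hg : g ∈ NY y₁
    · rw [bY_neg _ (fun h => hx ((conj_CY hg).1 h)), mul_zero]
    · rw [hc₁.supp g (fun h => hg h.2), zero_mul]
  rw [bY_pos _ hx]
  obtain ⟨h, hdef⟩ : ∃ h : G → F, h = fun g => a (g⁻¹ * x * g) := ⟨_, rfl⟩
  have hh : ∀ g : G, ∀ p ∈ P, h (g * p) = h g := by
    intro g p hp
    rw [hdef]
    have h1 := ha p⁻¹ (P.inv_mem hp) (g⁻¹ * x * g)
    change a ((g * p)⁻¹ * x * (g * p)) = a (g⁻¹ * x * g)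
    rw [← h1]
    congr 1
    group
  have hhl : ∀ u ∈ Subgroup.zpowers y₁, ∀ g : G, h (u * g) = h g := by
    intro u hu g
    rw [hdef]
    have h1 : u * x = x * u := by
      rw [CY, Subgroup.mem_centralizer_iff] at hx
      exact hx u hu
    have h2 : u⁻¹ * x * u = x := by
      rw [mul_assoc, ← h1, inv_mul_cancel_left]
    change a ((u * g)⁻¹ * x * (u * g)) = a (g⁻¹ * x * g)
    have h3 : (u * g)⁻¹ * x * (u * g) = g⁻¹ * (u⁻¹ * x * u) * g := by group
    rw [h3, h2]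
  obtain ⟨X, hXdef⟩ : ∃ X : Finset G, X = Finset.univ.filter
      (fun g : G => g ∈ N ∧ g ∉ NY y₁) := ⟨_, rfl⟩
  obtain ⟨X₁, hX₁def⟩ : ∃ X₁ : Finset G, X₁ = Finset.univ.filter
      (fun g : G => g ∈ N ⊓ NY y₁) := ⟨_, rfl⟩
  have hXm : ∀ g, g ∈ X ↔ g ∈ N ∧ g ∉ NY y₁ := by
    intro g
    rw [hXdef, Finset.mem_filter]
    simp
  have hX₁m : ∀ g, g ∈ X₁ ↔ g ∈ N ⊓ NY y₁ := by
    intro g
    rw [hX₁def, Finset.mem_filter]
    simp
  have hXr : ∀ g ∈ X, ∀ p ∈ P, g * p ∈ X := by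
    intro g hg p hp
    rw [hXm] at hg ⊢
    exact ⟨N.mul_mem hg.1 (hPN hp), fun h1 => hg.2
      ((Subgroup.mul_mem_cancel_right _ (hPn hp)).1 h1)⟩
  have hXl : ∀ g ∈ X, ∀ p ∈ P, p * g ∈ X := by
    intro g hg p hp
    rw [hXm] at hg ⊢
    exact ⟨N.mul_mem (hPN hp) hg.1, fun h1 => hg.2
      ((Subgroup.mul_mem_cancel_left _ (hPn hp)).1 h1)⟩
  have hX₁r : ∀ g ∈ X₁, ∀ p ∈ P, g * p ∈ X₁ := by
    intro g hg p hp
    rw [hX₁m] at hg ⊢
    exact Subgroup.mul_mem _ hg ⟨hPN hp, hPn hp⟩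
  have hcs : ∀ g ∈ N, ∑ p : P, c (g * p) = 1 := by
    intro g hg
    have h1 := hc.sum g hg
    rwa [finsum_eq_sum_of_fintype] at h1
  have hc₁s : ∀ g ∈ X₁, ∑ p : P, c₁ (g * p) = 1 := by
    intro g hg
    have h1 := hc₁.sum g ((hX₁m g).1 hg)
    rwa [finsum_eq_sum_of_fintype] at h1
  -- the two parts of the trace
  have hspl : (∑ᶠ g : G, c g * a (g⁻¹ * x * g)) = ∑ g ∈ X₁, c g • h g + ∑ g ∈ X, c g • h g := by
    rw [finsum_eq_sum_of_fintype]
    have hdis : Disjoint X₁ X := by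
      rw [Finset.disjoint_left]
      intro g h1 h2
      exact ((hXm g).1 h2).2 ((hX₁m g).1 h1).2
    rw [← Finset.sum_union hdis]
    symm
    rw [hdef]
    apply Finset.sum_subset (Finset.subset_univ _)
    intro g _ hg
    have h3 : g ∉ N := by
      intro h4
      apply hg
      rw [Finset.mem_union, hXm, hX₁m]
      by_cases h5 : g ∈ NY y₁
      · exact Or.inl ⟨h4, h5⟩
      · exact Or.inr ⟨h4, h5⟩
    rw [hc.supp g h3, zero_smul]
  have h1st : ∑ g ∈ X₁, c g • h g = ∑ᶠ g : G, c₁ g * bY y₁ a (g⁻¹ * x * g) := by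
    rw [weights_eq P X₁ hX₁r c c₁ (fun g hg => hcs g ((hX₁m g).1 hg).1) hc₁s h
      (fun g _ p hp => hh g p hp), finsum_eq_sum_of_fintype, hdef]
    have h2 : ∑ g ∈ X₁, c₁ g • a (g⁻¹ * x * g) =
        ∑ g ∈ X₁, c₁ g * bY y₁ a (g⁻¹ * x * g) := by
      apply Finset.sum_congr rfl
      intro g hg
      rw [bY_pos _ ((conj_CY ((hX₁m g).1 hg).2).2 hx), smul_eq_mul]
    rw [h2]
    apply Finset.sum_subset (Finset.subset_univ _)
    intro g _ hg
    rw [hc₁.supp g (fun h3 => hg ((hX₁m g).2 h3)), zero_mul]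
  -- representatives of the double cosets
  obtain ⟨d, hd0, hd1⟩ : ∃ d : G → F, (∀ g, g ∉ X → d g = 0) ∧
      ∀ g ∈ X, ∑ k : Subgroup.zpowers y₁ × P, d ((k.1 : G) * g * (k.2 : G)⁻¹) = 1 := by
    obtain ⟨d, h1, h2⟩ := @frw F _ (Subgroup.zpowers y₁ × P) G _ _ _
      (bact2 (Subgroup.zpowers y₁) P) (X : Set G)
      (fun k g hg => by
        rw [Finset.mem_coe] at hg ⊢
        exact hXr _ (hXl g hg _ (hP1P k.1.2)) _ (P.inv_mem k.2.2))
      (fun k g hg hkg => by
        rw [Finset.mem_coe] at hg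
        have h3 : (k.1 : G) * g * (k.2 : G)⁻¹ = g := hkg
        have h4 : g⁻¹ * (k.1 : G) * g = k.2 := by
          have h5 : (k.1 : G) * g = g * k.2 := mul_inv_eq_iff_eq_mul.1 h3
          rw [mul_assoc, h5, inv_mul_cancel_left]
        have h6 : (k.1 : G) = 1 := by
          by_contra h7
          exact ((hXm g).1 hg).2 (free hcyc hy ho k.1.2 h7 (by rw [h4]; exact k.2.2))
        have h8 : (k.2 : G) = 1 := by
          rw [← h4, h6]
          group
        exact Prod.ext (Subtype.ext h6) (Subtype.ext h8))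
    refine ⟨d, fun g hg => h1 g (by rwa [Finset.mem_coe]), fun g hg => ?_⟩
    have h3 := h2 g (by rwa [Finset.mem_coe])
    rw [finsum_eq_sum_of_fintype] at h3
    exact h3
  have h2nd : ∑ g ∈ X, c g • h g = 0 := by
    have e1 : ∑ g ∈ X, c g • h g =
        ∑ g ∈ X, (∑ u : Subgroup.zpowers y₁, d ((u : G) * g)) • h g := by
      refine weights_eq P X hXr c _ (fun g hg => hcs g ((hXm g).1 hg).1) (fun g hg => ?_) h
        (fun g _ p hp => hh g p hp)
      rw [← hd1 g hg, Fintype.sum_prod_type, Finset.sum_comm]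
      apply Finset.sum_congr rfl
      intro u _
      refine Fintype.sum_equiv (Equiv.inv P) _ _ (fun p => ?_)
      simp [mul_assoc]
    rw [e1]
    have e2 : ∀ g ∈ X, (∑ u : Subgroup.zpowers y₁, d ((u : G) * g)) • h g =
        ∑ u : Subgroup.zpowers y₁, d ((u : G) * g) • h ((u : G) * g) := by
      intro g _
      rw [Finset.sum_smul]
      apply Finset.sum_congr rfl
      intro u _
      rw [hhl u u.2 g]
    rw [Finset.sum_congr rfl e2, Finset.sum_comm]
    have e3 : ∀ u : Subgroup.zpowers y₁, ∑ g ∈ X, d ((u : G) * g) • h ((u : G) * g) =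
        ∑ g ∈ X, d g • h g := by
      intro u
      exact sum_left P X hXl (fun g => d g • h g) (u : G) (hP1P u.2)
    rw [Finset.sum_congr rfl (fun u _ => e3 u), Finset.sum_const, Finset.card_univ]
    have e4 : Fintype.card (Subgroup.zpowers y₁) = ℓ := by
      rw [← Nat.card_eq_fintype_card, Nat.card_zpowers, ho]
    rw [e4, nsmul_eq_mul, CharP.cast_eq_zero, zero_mul]
  rw [hspl, h1st, h2nd, add_zero]

end Pool.Agent.PP.CD2.H26
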