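import Pool.Agent.Helper66_D2.Tool
import Pool.Agent.Helper26_D2.Brq

/-!
# Squad PP, part D2: the relative trace of functions
-/

open scoped BigOperators

set_option linter.unusedSectionVars false

noncomputable section

namespace Pool.Agent.PP.CD2.H26

open Pool.Agent.PP Pool.Agent.Helper51_AWC Pool.Agent.Helper79_WRA Pool.Agent.PP.D1.H26
open Pool.Agent.PP.CD2.H66 Pool.Agent.PP.H20

variable {F : Type} [Field F] {G : Type} [Group G] [Finite G]

/-- the conjugate `g a g⁻¹` -/
def cg (g : G) (a : G → F) : G → F := fun x => a (g⁻¹ * x * g)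

/-- the relative trace with weights `c` -/
def TrF (c a : G → F) : G → F := fun x => ∑ᶠ g : G, c g * a (g⁻¹ * x * g)

theorem TrF_eq [Fintype G] (c a : G → F) : TrF c a = ∑ g : G, c g • cg g a := by
  funext x
  rw [TrF, finsum_eq_sum_of_fintype, Finset.sum_apply]
  rfl

theorem cg_mul (g h : G) (a : G → F) : cg (g * h) a = cg g (cg h a) := by
  funext x
  unfold cg
  congr 1
  group

theorem cg_mulF (g : G) (a b : G → F) : cg g (mulF a b) = mulF (cg g a) (cg g b) :=
  conj_mulF g a b

theorem cg_of_cm {N : Subgroup G} {a : G → F} (ha : CmF N a) {g : G} (hg : g ∈ N) :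
    cg g a = a := by
  funext x
  have h := ha g⁻¹ (N.inv_mem hg) x
  rw [inv_inv] at h
  exact h

theorem cm_of_cg {N : Subgroup G} {a : G → F} (ha : ∀ g ∈ N, cg g a = a) : CmF N a := by
  intro c hc x
  have h := congrFun (ha c hc) (c * x * c⁻¹)
  unfold cg at h
  rw [← h]
  congr 1
  group

theorem mulF_sum' {ι : Type} (s : Finset ι) (e : ι → G → F) (a : G → F) :
    mulF a (∑ k ∈ s, e k) = ∑ k ∈ s, mulF a (e k) := by
  apply toMA_injective
  rw [toMA_mulF, toMA_sum', toMA_sum', Finset.mul_sum]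
  exact Finset.sum_congr rfl fun k _ => by rw [toMA_mulF]

theorem sum_mulF' {ι : Type} (s : Finset ι) (e : ι → G → F) (a : G → F) :
    mulF (∑ k ∈ s, e k) a = ∑ k ∈ s, mulF (e k) a := by
  apply toMA_injective
  rw [toMA_mulF, toMA_sum', toMA_sum', Finset.sum_mul]
  exact Finset.sum_congr rfl fun k _ => by rw [toMA_mulF]

/-- multiplication by an element which commutes with `N` -/
theorem mul_TrF {N P : Subgroup G} {c m : G → F} (hc : IsW N P c) (hm : CmF N m) (a : G → F) :
    mulF m (TrF c a) = TrF c (mulF m a) := by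
  have := Fintype.ofFinite G
  rw [TrF_eq, TrF_eq, mulF_sum']
  apply Finset.sum_congr rfl
  intro g _
  by_cases hg : g ∈ N
  · rw [mulF_smul, cg_mulF, cg_of_cm hm hg]
  · rw [hc.supp g hg, zero_smul, zero_smul, mulF_zero]

theorem TrF_mul {N P : Subgroup G} {c m : G → F} (hc : IsW N P c) (hm : CmF N m) (a : G → F) :
    mulF (TrF c a) m = TrF c (mulF a m) := by
  have := Fintype.ofFinite G
  rw [TrF_eq, TrF_eq, sum_mulF']
  apply Finset.sum_congr rfl
  intro g _
  by_cases hg : g ∈ N
  · rw [smul_mulF, cg_mulF, cg_of_cm hm hg]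
  · rw [hc.supp g hg, zero_smul, zero_smul, zero_mulF]

theorem TrF_sp {N P : Subgroup G} {c a : G → F} (hc : IsW N P c) (ha : SpF N a) :
    SpF N (TrF c a) := by
  have := Fintype.ofFinite G
  rw [TrF_eq]
  refine SpF.sum fun g _ => ?_
  by_cases hg : g ∈ N
  · refine SpF.smul _ fun x hx => ha _ fun h => hx ?_
    have h1 := N.mul_mem (N.mul_mem hg h) (N.inv_mem hg)
    have e : g * (g⁻¹ * x * g) * g⁻¹ = x := by group
    rwa [e] at h1
  · rw [hc.supp g hg, zero_smul]
    exact SpF.zero _

/-- the relative trace does not depend on the weights -/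
theorem TrF_indep {N P : Subgroup G} (hPN : P ≤ N) {c c' a : G → F} (hc : IsW N P c)
    (hc' : IsW N P c') (ha : CmF P a) : TrF c a = TrF c' a := by
  classical
  have := Fintype.ofFinite G
  have := Fintype.ofFinite P
  rw [TrF_eq, TrF_eq]
  have key : ∀ d : G → F, IsW N P d → ∑ g : G, d g • cg g a =
      ∑ g ∈ Finset.univ.filter (fun g : G => g ∈ N), d g • cg g a := by
    intro d hd
    symm
    apply Finset.sum_subset (Finset.subset_univ _)
    intro g _ hg
    rw [hd.supp g (fun h => hg (Finset.mem_filter.2 ⟨Finset.mem_univ _, h⟩)), zero_smul]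
  rw [key c hc, key c' hc']
  have hmem : ∀ g : G, g ∈ Finset.univ.filter (fun g : G => g ∈ N) ↔ g ∈ N := by
    intro g
    rw [Finset.mem_filter]
    simp
  refine weights_eq P _ (fun g hg p hp => ?_) c c' (fun g hg => ?_) (fun g hg => ?_) _
    (fun g _ p hp => ?_)
  · rw [hmem] at hg ⊢
    exact N.mul_mem hg (hPN hp)
  · have h1 := hc.sum g ((hmem g).1 hg)
    rwa [finsum_eq_sum_of_fintype] at h1
  · have h1 := hc'.sum g ((hmem g).1 hg)
    rwa [finsum_eq_sum_of_fintype] at h1
  · rw [cg_mul, cg_of_cm ha hp]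

/-- the relative trace commutes with `N` -/
theorem TrF_cm {N P : Subgroup G} (hPN : P ≤ N) {c a : G → F} (hc : IsW N P c) (ha : CmF P a) :
    CmF N (TrF c a) := by
  have := Fintype.ofFinite G
  have := Fintype.ofFinite P
  refine cm_of_cg fun m hm => ?_
  have hw : IsW N P (fun g => c (m⁻¹ * g)) := by
    refine ⟨fun g hg => hc.supp _ fun h => hg ?_, fun g hg => ?_⟩
    · have h1 := N.mul_mem hm h
      rwa [mul_inv_cancel_left] at h1
    · have h1 := hc.sum (m⁻¹ * g) (N.mul_mem (N.inv_mem hm) hg)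
      rw [← h1]
      congr 1
      funext p
      rw [mul_assoc]
  have h2 : cg m (TrF c a) = TrF (fun g => c (m⁻¹ * g)) a := by
    funext x
    unfold cg TrF
    rw [finsum_eq_sum_of_fintype, finsum_eq_sum_of_fintype]
    refine Fintype.sum_equiv (Equiv.mulLeft m) _ _ fun g => ?_
    change c g * a (g⁻¹ * (m⁻¹ * x * m) * g) =
      c (m⁻¹ * (m * g)) * a ((m * g)⁻¹ * x * (m * g))
    rw [inv_mul_cancel_left]
    congr 2
    group
  rw [h2]
  exact TrF_indep hPN hw hc ha

end Pool.Agent.PP.CD2.H26
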