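import Pool.Agent.Helper66_D2.Stmts
import Pool.Agent.Helper74_PP.Brt

/-!
# Squad PP, part D2, module BRP: the Brauer map and the relative trace
-/

open scoped BigOperators

set_option linter.unusedSectionVars false

noncomputable section

namespace Pool.Agent.PP.CD2.H26

open Pool.Agent.PP Pool.Agent.Helper51_AWC Pool.Agent.Helper79_WRA

/-- a weighted sum as a sum over the cosets -/
theorem wsum {F : Type} [Field F] {G : Type} [Group G] [Fintype G] {H Q : Subgroup G}
    {c : G → F} (hc : IsW H Q c) (h : G → F) (hH : ∀ g, g ∉ H → h g = 0)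
    (hQ : ∀ g, ∀ q ∈ Q, h (g * q) = h g) :
    ∑ᶠ g : G, c g * h g = ∑ᶠ ξ : G ⧸ Q, h ξ.out := by
  classical
  have := Fintype.ofFinite Q
  have := Fintype.ofFinite (G ⧸ Q)
  rw [finsum_eq_sum_of_fintype, finsum_eq_sum_of_fintype]
  rw [← Finset.sum_fiberwise (s := Finset.univ) (g := fun g : G => (QuotientGroup.mk g : G ⧸ Q))]
  apply Finset.sum_congr rfl
  intro ξ _
  have e1 : ∑ g ∈ Finset.univ.filter (fun g : G => (QuotientGroup.mk g : G ⧸ Q) = ξ), c g * h g =
      ∑ q : Q, c (ξ.out * q) * h (ξ.out * q) := by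
    symm
    refine Finset.sum_bij (fun q _ => ξ.out * (q : G)) (fun q _ => ?_) (fun q _ q' _ hqq => ?_)
      (fun g hg => ?_) (fun _ _ => rfl)
    · rw [Finset.mem_filter]
      refine ⟨Finset.mem_univ _, ?_⟩
      rw [QuotientGroup.mk_mul_of_mem _ q.2]
      exact Quotient.out_eq _
    · exact Subtype.ext (mul_left_cancel hqq)
    · rw [Finset.mem_filter] at hg
      have h1 : (QuotientGroup.mk ξ.out : G ⧸ Q) = QuotientGroup.mk g := by
        rw [hg.2]
        exact Quotient.out_eq _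
      rw [QuotientGroup.eq] at h1
      exact ⟨⟨_, h1⟩, Finset.mem_univ _, by simp⟩
  rw [e1]
  have e2 : ∑ q : Q, c (ξ.out * q) * h (ξ.out * q) = (∑ q : Q, c (ξ.out * q)) * h ξ.out := by
    rw [Finset.sum_mul]
    apply Finset.sum_congr rfl
    intro q _
    rw [hQ _ q q.2]
  rw [e2]
  by_cases hξ : ξ.out ∈ H
  · have h1 := hc.sum ξ.out hξ
    rw [finsum_eq_sum_of_fintype] at h1
    rw [h1, one_mul]
  · rw [hH _ hξ, mul_zero]

/-- the normaliser acts on the centraliser -/
theorem conj_cent {G : Type} [Group G] {P : Subgroup G} {g x : G}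
    (hg : g ∈ Subgroup.normalizer (P : Set G)) :
    g⁻¹ * x * g ∈ Subgroup.centralizer (P : Set G) ↔ x ∈ Subgroup.centralizer (P : Set G) := by
  have key : ∀ g ∈ Subgroup.normalizer (P : Set G), ∀ x ∈ Subgroup.centralizer (P : Set G),
      g⁻¹ * x * g ∈ Subgroup.centralizer (P : Set G) := by
    intro g hg x hx
    rw [Subgroup.mem_centralizer_iff] at hx ⊢
    intro h hh
    have h1 : g * h * g⁻¹ ∈ (P : Set G) := (Subgroup.mem_normalizer_iff.1 hg h).1 hh
    have h2 := hx _ h1
    have h3 : g⁻¹ * (g * h * g⁻¹ * x) * g = g⁻¹ * (x * (g * h * g⁻¹)) * g := by rw [h2]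
    have e1 : h * (g⁻¹ * x * g) = g⁻¹ * (g * h * g⁻¹ * x) * g := by group
    have e2 : g⁻¹ * x * g * h = g⁻¹ * (x * (g * h * g⁻¹)) * g := by group
    rw [e1, e2, h3]
  refine ⟨fun h => ?_, key g hg x⟩
  have h1 := key g⁻¹ (Subgroup.inv_mem _ hg) _ h
  have e : g⁻¹⁻¹ * (g⁻¹ * x * g) * g⁻¹ = x := by group
  rwa [e] at h1

theorem br_pos {F : Type} [Field F] {G : Type} [Group G] {P : Subgroup G} {x : G} (a : G → F)
    (hx : x ∈ Subgroup.centralizer (P : Set G)) : br P a x = a x := by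
  classical
  unfold br
  exact if_pos hx

theorem br_neg {F : Type} [Field F] {G : Type} [Group G] {P : Subgroup G} {x : G} (a : G → F)
    (hx : x ∉ Subgroup.centralizer (P : Set G)) : br P a x = 0 := by
  classical
  unfold br
  exact if_neg hx

/-- the fixed points of `P` on the cosets of `Q` -/
theorem fix_iff {G : Type} [Group G] {P Q : Subgroup G} (ξ : G ⧸ Q) :
    ξ ∈ MulAction.fixedPoints P (G ⧸ Q) ↔ P ≤ conjS ξ.out Q := by
  have key : ∀ p : G, p • ξ = ξ ↔ ξ.out⁻¹ * p * ξ.out ∈ Q := by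
    intro p
    have h1 : ξ = QuotientGroup.mk ξ.out := (Quotient.out_eq _).symm
    have h2 : p • ξ = ξ ↔ (QuotientGroup.mk (p * ξ.out) : G ⧸ Q) = QuotientGroup.mk ξ.out := by
      conv_lhs => rw [h1]
      rfl
    rw [h2, eq_comm, QuotientGroup.eq, mul_assoc]
  constructor
  · intro h p hp
    have h1 := (key p).1 (MulAction.mem_fixedPoints.1 h ⟨p, hp⟩)
    refine Subgroup.mem_map.2 ⟨_, h1, ?_⟩
    change ξ.out * (ξ.out⁻¹ * p * ξ.out) * ξ.out⁻¹ = p
    group
  · intro h
    rw [MulAction.mem_fixedPoints]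
    rintro ⟨p, hp⟩
    refine (key p).2 ?_
    obtain ⟨q, hq, hqp⟩ := Subgroup.mem_map.1 (h hp)
    have h3 : ξ.out * q * ξ.out⁻¹ = p := hqp
    rw [← h3]
    have e : ξ.out⁻¹ * (ξ.out * q * ξ.out⁻¹) * ξ.out = q := by group
    rw [e]
    exact hq

theorem le_conj_self {G : Type} [Group G] [Finite G] {P : Subgroup G} {g : G} :
    P ≤ conjS g P ↔ g ∈ Subgroup.normalizer (P : Set G) := by
  constructor
  · intro h
    have hcard : Nat.card (conjS g P) = Nat.card P :=
      (Nat.card_congr (P.equivMapOfInjective (MulAut.conj g).toMonoidHom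
        (MulAut.conj g).injective).toEquiv).symm
    have heq : P = conjS g P := Subgroup.eq_of_le_of_card_ge h hcard.le
    rw [Subgroup.mem_normalizer_iff]
    intro x
    constructor
    · intro hx
      have h1 : g * x * g⁻¹ ∈ conjS g P := Subgroup.mem_map.2 ⟨x, hx, rfl⟩
      rwa [← heq] at h1
    · intro hx
      rw [heq] at hx
      obtain ⟨q, hq, hqx⟩ := Subgroup.mem_map.1 hx
      have h3 : g * q * g⁻¹ = g * x * g⁻¹ := hqx
      have h4 : q = x := mul_left_cancel (mul_right_cancel h3)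
      rw [← h4]
      exact hq
  · intro h p hp
    have h1 : g⁻¹ * p * g ∈ P := by
      have h2 := (Subgroup.mem_normalizer_iff.1 (Subgroup.inv_mem _ h) p).1 hp
      rwa [inv_inv] at h2
    refine Subgroup.mem_map.2 ⟨_, h1, ?_⟩
    change g * (g⁻¹ * p * g) * g⁻¹ = p
    group

theorem brp (horb : OrbStmt) : BrpStmt := by
  classical
  intro ℓ hℓ F _ hF G _ _ H P Q hP hPH hQH c a hc ha
  have := Fintype.ofFinite G
  have hmain : ∀ y ∈ Subgroup.centralizer (P : Set G),
      (∑ᶠ g : G, c g * a (g⁻¹ * y * g)) =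
        ∑ᶠ (ξ : G ⧸ Q) (_ : ξ ∈ MulAction.fixedPoints P (G ⧸ Q)),
          if ξ.out ∈ H then a (ξ.out⁻¹ * y * ξ.out) else 0 := by
    intro y hy
    obtain ⟨h, hdef⟩ : ∃ h : G → F, h = fun g => if g ∈ H then a (g⁻¹ * y * g) else 0 := ⟨_, rfl⟩
    have hH : ∀ g, g ∉ H → h g = 0 := by
      intro g hg
      rw [hdef]
      exact if_neg hg
    have hQ : ∀ g, ∀ q ∈ Q, h (g * q) = h g := by
      intro g q hq
      rw [hdef]
      change (if g * q ∈ H then a ((g * q)⁻¹ * y * (g * q)) else 0) =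
        if g ∈ H then a (g⁻¹ * y * g) else 0
      have h1 : g * q ∈ H ↔ g ∈ H := Subgroup.mul_mem_cancel_right _ (hQH hq)
      have h2 : a ((g * q)⁻¹ * y * (g * q)) = a (g⁻¹ * y * g) := by
        have h3 := ha q⁻¹ (Q.inv_mem hq) (g⁻¹ * y * g)
        rw [← h3]
        congr 1
        group
      rw [h2]
      by_cases hg : g ∈ H
      · rw [if_pos (h1.2 hg), if_pos hg]
      · rw [if_neg (fun h => hg (h1.1 h)), if_neg hg]
    have hPi : ∀ p ∈ P, ∀ g, h (p * g) = h g := by
      intro p hp g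
      rw [hdef]
      change (if p * g ∈ H then a ((p * g)⁻¹ * y * (p * g)) else 0) =
        if g ∈ H then a (g⁻¹ * y * g) else 0
      have h1 : p * g ∈ H ↔ g ∈ H := Subgroup.mul_mem_cancel_left _ (hPH hp)
      have h2 : (p * g)⁻¹ * y * (p * g) = g⁻¹ * y * g := by
        have h3 : p * y = y * p := Subgroup.mem_centralizer_iff.1 hy p hp
        have h4 : p⁻¹ * y * p = y := by
          rw [mul_assoc, ← h3, inv_mul_cancel_left]
        have h5 : (p * g)⁻¹ * y * (p * g) = g⁻¹ * (p⁻¹ * y * p) * g := by group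
        rw [h5, h4]
      rw [h2]
      by_cases hg : g ∈ H
      · rw [if_pos (h1.2 hg), if_pos hg]
      · rw [if_neg (fun h => hg (h1.1 h)), if_neg hg]
    have e1 : (∑ᶠ g : G, c g * a (g⁻¹ * y * g)) = ∑ᶠ g : G, c g * h g := by
      congr 1
      funext g
      by_cases hg : g ∈ H
      · rw [hdef]
        change _ = c g * (if g ∈ H then a (g⁻¹ * y * g) else 0)
        rw [if_pos hg]
      · rw [hc.supp g hg, zero_mul, zero_mul]
    have hout : ∀ g : G, h (Quotient.out (QuotientGroup.mk g : G ⧸ Q)) = h g := by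
      intro g
      obtain ⟨q, hq⟩ := QuotientGroup.mk_out_eq_mul Q g
      rw [hq, hQ g q q.2]
    have e2 := horb ℓ F F P (G ⧸ Q) hℓ.out hF.char hP (fun ξ => h ξ.out) (fun p ξ => by
      have h1 : p • ξ = (QuotientGroup.mk ((p : G) * ξ.out) : G ⧸ Q) := by
        have h2 : ξ = QuotientGroup.mk ξ.out := (Quotient.out_eq _).symm
        conv_lhs => rw [h2]
        rfl
      change h (Quotient.out (p • ξ)) = h ξ.out
      rw [h1, hout, hPi p p.2])
    rw [e1, wsum hc h hH hQ, e2]
    rw [hdef]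
  constructor
  · intro hne
    obtain ⟨y, hy⟩ := Function.ne_iff.1 hne
    by_cases hyc : y ∈ Subgroup.centralizer (P : Set G)
    swap
    · exact absurd (br_neg _ hyc) hy
    rw [br_pos _ hyc, hmain y hyc] at hy
    by_contra hcon
    apply hy
    refine finsum_eq_zero_of_forall_eq_zero fun ξ => ?_
    rw [finsum_eq_if]
    by_cases hξ : ξ ∈ MulAction.fixedPoints P (G ⧸ Q)
    · rw [if_pos hξ]
      by_cases hξH : ξ.out ∈ H
      · exact absurd ⟨ξ.out, hξH, (fix_iff ξ).1 hξ⟩ hcon
      · exact if_neg hξH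
    · exact if_neg hξ
  · intro hPQ c₁ hc₁
    subst hPQ
    funext y
    by_cases hyc : y ∈ Subgroup.centralizer (P : Set G)
    · rw [br_pos _ hyc, hmain y hyc]
      obtain ⟨h, hdef⟩ : ∃ h : G → F, h = fun g =>
          if g ∈ H ⊓ Subgroup.normalizer (P : Set G) then a (g⁻¹ * y * g) else 0 := ⟨_, rfl⟩
      have hPn : P ≤ Subgroup.normalizer (P : Set G) := Subgroup.le_normalizer
      have hH : ∀ g, g ∉ H ⊓ Subgroup.normalizer (P : Set G) → h g = 0 := by
        intro g hg
        rw [hdef]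
        exact if_neg hg
      have hQ : ∀ g, ∀ q ∈ P, h (g * q) = h g := by
        intro g q hq
        rw [hdef]
        change (if g * q ∈ H ⊓ Subgroup.normalizer (P : Set G) then
          a ((g * q)⁻¹ * y * (g * q)) else 0) =
          if g ∈ H ⊓ Subgroup.normalizer (P : Set G) then a (g⁻¹ * y * g) else 0
        have h1 : g * q ∈ H ⊓ Subgroup.normalizer (P : Set G) ↔
            g ∈ H ⊓ Subgroup.normalizer (P : Set G) :=
          Subgroup.mul_mem_cancel_right _ ⟨hPH hq, hPn hq⟩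
        have h2 : a ((g * q)⁻¹ * y * (g * q)) = a (g⁻¹ * y * g) := by
          have h3 := ha q⁻¹ (P.inv_mem hq) (g⁻¹ * y * g)
          rw [← h3]
          congr 1
          group
        rw [h2]
        by_cases hg : g ∈ H ⊓ Subgroup.normalizer (P : Set G)
        · rw [if_pos (h1.2 hg), if_pos hg]
        · rw [if_neg (fun h => hg (h1.1 h)), if_neg hg]
      have e1 : (∑ᶠ g : G, c₁ g * br P a (g⁻¹ * y * g)) = ∑ᶠ g : G, c₁ g * h g := by
        congr 1
        funext g
        by_cases hg : g ∈ H ⊓ Subgroup.normalizer (P : Set G)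
        · rw [hdef]
          change _ = c₁ g * (if g ∈ H ⊓ Subgroup.normalizer (P : Set G) then
            a (g⁻¹ * y * g) else 0)
          rw [if_pos hg, br_pos _ ((conj_cent hg.2).2 hyc)]
        · rw [hc₁.supp g hg, zero_mul, zero_mul]
      rw [e1, wsum hc₁ h hH hQ]
      congr 1
      funext ξ
      rw [finsum_eq_if, hdef]
      by_cases hξ : ξ ∈ MulAction.fixedPoints P (G ⧸ P)
      · rw [if_pos hξ]
        have h1 := le_conj_self.1 ((fix_iff ξ).1 hξ)
        by_cases h2 : ξ.out ∈ H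
        · rw [if_pos h2]
          exact (if_pos (⟨h2, h1⟩ : ξ.out ∈ H ⊓ Subgroup.normalizer (P : Set G))).symm
        · rw [if_neg h2]
          exact (if_neg (fun h : ξ.out ∈ H ⊓ Subgroup.normalizer (P : Set G) => h2 h.1)).symm
      · rw [if_neg hξ]
        have h1 : ξ.out ∉ Subgroup.normalizer (P : Set G) := fun h =>
          hξ ((fix_iff ξ).2 (le_conj_self.2 h))
        exact (if_neg (fun h : ξ.out ∈ H ⊓ Subgroup.normalizer (P : Set G) => h1 h.2)).symm
    · rw [br_neg _ hyc]
      symm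
      refine finsum_eq_zero_of_forall_eq_zero fun g => ?_
      by_cases hg : g ∈ Subgroup.normalizer (P : Set G)
      · rw [br_neg _ (fun h => hyc ((conj_cent hg).1 h)), mul_zero]
      · rw [hc₁.supp g (fun h => hg h.2), zero_mul]

end Pool.Agent.PP.CD2.H26
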