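import Pool.Agent.Helper26_D2.Tr
import Pool.Agent.Helper21_D1.Wgt

/-!
# Squad PP, part D2, module BRS: the Brauer map is onto the centre
-/

open scoped BigOperators

set_option linter.unusedSectionVars false

noncomputable section

namespace Pool.Agent.PP.CD2.H26

open Pool.Agent.PP Pool.Agent.Helper51_AWC Pool.Agent.Helper79_WRA Pool.Agent.PP.D1.H26
open Pool.Agent.PP.CD2.H66 Pool.Agent.PP.H20

theorem isP {G : Type} [Group G] {ℓ n : ℕ} [Fact ℓ.Prime] {P : Subgroup G}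
    (hcard : Nat.card P = ℓ ^ n) : IsPGroup ℓ P := IsPGroup.of_card hcard

theorem zp_isP {G : Type} [Group G] {ℓ : ℕ} [Fact ℓ.Prime] {y : G} (ho : orderOf y = ℓ) :
    IsPGroup ℓ (Subgroup.zpowers y) := by
  refine IsPGroup.of_card (n := 1) ?_
  rw [Nat.card_zpowers, ho, pow_one]

theorem bY_of_sp {F : Type} [Field F] {G : Type} [Group G] {y : G} {a : G → F}
    (ha : SpF (CY y) a) : bY y a = a := by
  funext x
  by_cases hx : x ∈ CY y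
  · exact bY_pos _ hx
  · rw [bY_neg _ hx, ha x hx]

theorem P_le_NY {G : Type} [Group G] {P : Subgroup G} (hcyc : IsCyclic P) {y : G} (hy : y ∈ P) :
    P ≤ CY y := by
  intro p hp
  rw [CY, Subgroup.mem_centralizer_iff]
  intro z hz
  have hz' : z ∈ P := by
    have h : Subgroup.zpowers y ≤ P := by
      rw [Subgroup.zpowers_le]
      exact hy
    exact h hz
  have hcg := hcyc.commGroup
  have h1 := mul_comm' (⟨z, hz'⟩ : P) ⟨p, hp⟩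
  exact congrArg (fun r : P => (r : G)) h1

theorem brs (frw : FrwStmt) (brq : BrqStmt) : BrsStmt := by
  classical
  intro ℓ hℓ F _ hF G _ _ n N P y₁ hPN hcyc hcard hy ho b hbN hbc hbb hprj c₀ hc₀ hc₀c hbc₀
  obtain ⟨⟨c, hc⟩, -⟩ := Pool.Agent.PP.D1H21.wgt frw F G N P hPN
  obtain ⟨c₁, z₁, hc₁, hz₁, hz₁c, hb₁⟩ := hprj
  have hPC : P ≤ CY y₁ := P_le_NY hcyc hy
  have hPY : P ≤ NY y₁ := hPC.trans (CY_le_NY y₁)
  have hPK : P ≤ N ⊓ NY y₁ := le_inf hPN hPY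
  have hzP : Subgroup.zpowers y₁ ≤ P := by
    rw [Subgroup.zpowers_le]
    exact hy
  have hCN : CY y₁ ≤ NY y₁ := CY_le_NY y₁
  -- `b₁` as a relative trace of an element supported on `C`
  obtain ⟨b₁, hb₁def⟩ : ∃ b₁ : G → F, b₁ = bY y₁ b := ⟨_, rfl⟩
  rw [← hb₁def] at hbc₀ hb₁
  have hb₁sp : SpF (N ⊓ CY y₁) b₁ := by
    rw [hb₁def]
    exact bY_sp hbN
  have hb₁cm : CmF (N ⊓ NY y₁) b₁ := by
    rw [hb₁def]
    exact bY_cm hbc
  have hb₁b : bY y₁ b₁ = b₁ := bY_of_sp (hb₁sp.mono inf_le_right)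
  have hb₁tr : b₁ = TrF c₁ z₁ := by
    funext x
    exact hb₁ x
  obtain ⟨z₂, hz₂⟩ : ∃ z₂ : G → F, z₂ = bY y₁ z₁ := ⟨_, rfl⟩
  have hKK : (N ⊓ NY y₁) ⊓ NY y₁ = N ⊓ NY y₁ := by
    rw [inf_assoc, inf_idem]
  have hb₁tr2 : b₁ = TrF c₁ z₂ := by
    have h1 := brq ℓ F hF G n (N ⊓ NY y₁) P y₁ hPK hcyc hcard hy ho c₁ c₁ z₁ hc₁
      (by rw [hKK]; exact hc₁) hz₁c
    have h2 : bY y₁ (TrF c₁ z₁) = TrF c₁ (bY y₁ z₁) := h1
    rw [← hb₁tr, hb₁b, ← hz₂] at h2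
    exact h2
  have hz₂cm : CmF P z₂ := by
    rw [hz₂]
    have h1 := bY_cm (y := y₁) (H := P) (b := z₁) hz₁c
    rw [inf_eq_left.2 hPY] at h1
    exact h1
  have hz₂sp : SpF (N ⊓ CY y₁) z₂ := by
    rw [hz₂]
    have h1 := bY_sp (y := y₁) (N := N ⊓ NY y₁) (b := z₁) hz₁
    exact h1.mono (le_inf (inf_le_left.trans inf_le_left) inf_le_right)
  have hczsp : SpF (N ⊓ CY y₁) (mulF c₀ z₂) := hc₀.mul hz₂sp
  have hczcm : CmF P (mulF c₀ z₂) := (hc₀c.mono hPK).mul hz₂cm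
  obtain ⟨t, ht⟩ : ∃ t : G → F, t = TrF c (mulF c₀ z₂) := ⟨_, rfl⟩
  have htcm : CmF N t := by
    rw [ht]
    exact TrF_cm hPN hc hczcm
  have htsp : SpF N t := by
    rw [ht]
    exact TrF_sp hc (hczsp.mono inf_le_left)
  have htb : bY y₁ t = mulF c₀ b₁ := by
    have h1 := brq ℓ F hF G n N P y₁ hPN hcyc hcard hy ho c c₁ (mulF c₀ z₂) hc hc₁ hczcm
    have h2 : bY y₁ (TrF c (mulF c₀ z₂)) = TrF c₁ (bY y₁ (mulF c₀ z₂)) := h1
    rw [ht, h2, bY_of_sp (hczsp.mono inf_le_right), ← mul_TrF hc₁ hc₀c, ← hb₁tr2]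
  refine ⟨mulF b t, hbN.mul htsp, hbc.mul htcm, ?_, ?_⟩
  · rw [← mulF_assoc, hbb]
  · rw [bY_mulF hF (zp_isP ho) (hbc.mono (hzP.trans hPN)) (htcm.mono (hzP.trans hPN)), htb,
      ← hb₁def, ← mulF_assoc, hbc₀]
    rw [← cm_comm hb₁cm (hc₀.mono (inf_le_inf_left N hCN)), hbc₀]

end Pool.Agent.PP.CD2.H26
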